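import Pool.Agent.KS6_67.HW.Example

set_option autoImplicit false

/-! # MP_fdcc6d_al: the Huneke–Wiegand conjecture fails with every residue field -/

namespace Pool.Agent.Results.MP_fdcc6d_al.EveryResidueField

open Pool.Agent.KS6_67.HW

universe u w

/-- The Gorenstein condition for a one-dimensional Noetherian local domain: for some nonzero `x`
in the maximal ideal the socle of `R / (x)` is at most one-dimensional over the residue field. -/
def IsGorensteinDimOne (R : Type u) [CommRing R] [IsLocalRing R] : Prop :=
  ∃ x : R, x ≠ 0 ∧ x ∈ IsLocalRing.maximalIdeal R ∧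
    ∀ a b : R,
      (∀ m ∈ IsLocalRing.maximalIdeal R, a * m ∈ Ideal.span ({x} : Set R)) →
      (∀ m ∈ IsLocalRing.maximalIdeal R, b * m ∈ Ideal.span ({x} : Set R)) →
      a ∉ Ideal.span ({x} : Set R) →
      ∃ r : R, b - r * a ∈ Ideal.span ({x} : Set R)

/-- `Ext¹_R(M, M) = 0`: every short exact sequence `0 → M → E → M → 0` splits. -/
def SelfExtSplit (R : Type u) [CommRing R] (M : Type u) [AddCommGroup M] [Module R M] : Prop :=
  ∀ (E : Type w) [AddCommGroup E] [Module R E] (f : M →ₗ[R] E) (g : E →ₗ[R] M),
    Function.Injective f → Function.Surjective g → LinearMap.range f = LinearMap.ker g →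
      ∃ s : M →ₗ[R] E, g.comp s = LinearMap.id

/-- For every field `k` there is a one-dimensional Gorenstein Noetherian local domain `R`, a
`k`-algebra with residue field `k`, and a two-generated ideal `I` of `R` which is not free although
every extension of `I` by itself splits. -/
theorem result (k : Type u) [Field k] :
    ∃ (R : Type u) (_ : CommRing R) (_ : Algebra k R) (_ : IsDomain R) (_ : IsNoetherianRing R)
      (_ : IsLocalRing R),
      ringKrullDim R = 1 ∧ IsGorensteinDimOne R ∧
      Function.Bijective (algebraMap k (IsLocalRing.ResidueField R)) ∧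
      ∃ I : Ideal R, (∃ u v : R, I = Ideal.span {u, v}) ∧ SelfExtSplit.{u, w} R I ∧
        ¬ Module.Free R I := by
  let D := dataS k
  refine ⟨R D, inferInstance, inferInstance, inferInstance, inferInstance, inferInstance,
    dim_one D, gorenstein D, ⟨?_, ?_⟩, LinearMap.range (emb D), ⟨emb D (u0 D), emb D (ux D), ?_⟩,
    ?_, ?_⟩
  · exact (algebraMap k (IsLocalRing.ResidueField (R D))).injective
  · intro y
    obtain ⟨a, rfl⟩ := IsLocalRing.residue_surjective y
    refine ⟨PowerSeries.constantCoeff (a : V k), ?_⟩
    have h1 : algebraMap k (IsLocalRing.ResidueField (R D))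
        (PowerSeries.constantCoeff (a : V k)) =
        IsLocalRing.residue (R D) (algebraMap k (R D) (PowerSeries.constantCoeff (a : V k))) := by
      rw [IsScalarTower.algebraMap_apply k (R D) (IsLocalRing.ResidueField (R D))]
      rfl
    rw [h1, ← sub_eq_zero, ← map_sub, IsLocalRing.residue_eq_zero_iff, mem_maximalIdeal]
    change PowerSeries.constantCoeff (PowerSeries.C (PowerSeries.constantCoeff (a : V k)) -
      (a : V k)) = 0
    simp
  · apply le_antisymm
    · rintro _ ⟨m, rfl⟩
      obtain ⟨r, t, h⟩ := exists_decomp D m
      rw [h, map_add, map_smul, map_smul]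
      exact Ideal.add_mem _ (Ideal.mul_mem_left _ _ (Ideal.subset_span (by simp)))
        (Ideal.mul_mem_left _ _ (Ideal.subset_span (by simp)))
    · rw [Ideal.span_le]
      rintro _ (rfl | rfl)
      · exact ⟨_, rfl⟩
      · exact ⟨_, rfl⟩
  · intro E _ _ f g hf hg hfg
    let e : M D ≃ₗ[R D] LinearMap.range (emb D) := LinearEquiv.ofInjective (emb D) (emb_inj D)
    obtain ⟨s, hs⟩ := ext_split D E (f.comp e.toLinearMap) (e.symm.toLinearMap.comp g)
      (hf.comp e.injective) (e.symm.surjective.comp hg) (by
        ext y
        constructor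
        · rintro ⟨m, rfl⟩
          have : f (e m) ∈ LinearMap.ker g := by rw [← hfg]; exact ⟨_, rfl⟩
          rw [LinearMap.mem_ker] at this ⊢
          show e.symm (g (f (e m))) = 0
          rw [this, map_zero]
        · intro hy
          rw [LinearMap.mem_ker] at hy
          have h1 : g y = 0 := by
            have h2 : e.symm (g y) = 0 := hy
            simpa using h2
          have h3 : y ∈ LinearMap.range f := by rw [hfg]; exact h1
          obtain ⟨z, rfl⟩ := h3
          exact ⟨e.symm z, by simp⟩)
    refine ⟨s.comp e.symm.toLinearMap, ?_⟩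
    ext1 z
    have h1 := LinearMap.congr_fun hs (e.symm z)
    have h2 : e.symm (g (s (e.symm z))) = e.symm z := h1
    exact e.symm.injective h2
  · intro hfree
    let e : M D ≃ₗ[R D] LinearMap.range (emb D) := LinearEquiv.ofInjective (emb D) (emb_inj D)
    exact not_free D (Module.Free.of_equiv e.symm)

end Pool.Agent.Results.MP_fdcc6d_al.EveryResidueField
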